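import Pool.Agent.H93.ET.Defs
import Pool.Agent.H29.SC.CNT

/-!
# GCT: counting the points of a gadget
-/

set_option autoImplicit false

open Finset Pool.Agent.H93.ET Pool.Agent.H85.SC Pool.Agent.H87.Synth Pool.Agent.H29.SC

namespace Pool.Agent.H29.ET

theorem per_mul {Q : ℤ → Prop} {D : ℕ} (hQ : ∀ z, Q (z + D) ↔ Q z) (k z : ℤ) :
    Q (z + k * D) ↔ Q z := by
  induction k using Int.induction_on generalizing z with
  | zero => simp
  | succ i ih =>
    have h1 := ih (z + D)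
    rw [hQ z] at h1
    rw [← h1]
    have h2 : z + ((i : ℤ) + 1) * D = z + D + i * D := by ring
    rw [h2]
  | pred i ih =>
    have h1 := ih (z - D)
    have h3 := hQ (z - D)
    rw [sub_add_cancel] at h3
    rw [h3, ← h1]
    have h2 : z + (-(i : ℤ) - 1) * D = z - D + -i * D := by ring
    rw [h2]

theorem ct_shift {Q : ℤ → Prop} {D : ℕ} (hQ : ∀ z, Q (z + D) ↔ Q z) (t : ℤ) :
    ct (fun x => Q ((x : ℤ) + t)) D = ct (fun x => Q x) D := by
  classical
  rcases Nat.eq_zero_or_pos D with h0 | h0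
  · subst h0
    simp [ct]
  have hnat : ∀ n : ℕ, ct (fun x => Q ((x : ℤ) + n)) D = ct (fun x => Q x) D := by
    intro n
    induction n with
    | zero => exact ct_congr _ fun x => by simp
    | succ n ih =>
      rw [← ih, ct_congr (P := fun x : ℕ => Q ((x : ℤ) + ((n + 1 : ℕ) : ℤ)))
        (Q := fun x : ℕ => Q (((x + 1 : ℕ) : ℤ) + n)) D (fun x => by
          have h6 : (x : ℤ) + ((n + 1 : ℕ) : ℤ) = ((x + 1 : ℕ) : ℤ) + n := by push_cast; ring
          rw [h6])]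
      unfold ct
      rw [Finset.card_filter, Finset.card_filter]
      have h1 := Finset.sum_range_succ (fun x : ℕ => if Q ((x : ℤ) + n) then 1 else 0) D
      rw [Finset.sum_range_succ'] at h1
      have h2 : (if Q (((D : ℕ) : ℤ) + n) then 1 else 0) =
          (if Q (((0 : ℕ) : ℤ) + n) then 1 else 0) := by
        have h3 : Q (((D : ℕ) : ℤ) + n) ↔ Q (((0 : ℕ) : ℤ) + n) := by
          have h4 := hQ n
          rw [add_comm] at h4
          rw [h4]
          simp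
        simp only [h3]
      rw [h2] at h1
      exact Nat.add_right_cancel h1
  have hD : (0 : ℤ) < D := by exact_mod_cast h0
  have h1 : 0 ≤ t % D := Int.emod_nonneg _ hD.ne'
  rw [← hnat (t % D).toNat]
  refine ct_congr _ fun x => ?_
  rw [Int.toNat_of_nonneg h1, ← per_mul hQ (t / D) ((x : ℤ) + t % D)]
  have h2 : (x : ℤ) + t % D + t / D * D = x + t := by
    have h3 := Int.emod_add_mul_ediv t D
    linarith
  rw [h2]

/-- periodic sets in an interval -/
theorem card_win {Q : ℤ → Prop} [DecidablePred Q] {N D : ℕ} (hD : D ∣ N)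
    (hQ : ∀ z, Q (z + D) ↔ Q z) (Z : ℤ) :
    ((Finset.Ico Z (Z + N)).filter Q).card = N / D * ct (fun x => Q x) D := by
  have h1 := card_shift (Q := fun z => Q (z + (Z - N))) hD (by
    intro z
    have h2 : z + (D : ℤ) + (Z - N) = z + (Z - N) + D := by ring
    rw [h2, hQ])
  rw [ct_shift hQ] at h1
  rw [← h1]
  refine Finset.card_nbij' (fun z => z - (Z - N)) (fun z => z + (Z - N)) ?_ ?_ ?_ ?_
  · intro z hz
    simp only [Finset.coe_filter, Finset.mem_Ico, Set.mem_ofPred_eq] at hz ⊢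
    refine ⟨by omega, ?_⟩
    rw [sub_add_cancel]
    exact hz.2
  · intro z hz
    simp only [Finset.coe_filter, Finset.mem_Ico, Set.mem_ofPred_eq] at hz ⊢
    exact ⟨by omega, hz.2⟩
  · intro z _
    simp
  · intro z _
    simp

theorem pr_ge5 (m j : ℕ) : 5 ≤ pr m j := by
  have h1 := pr_gt m j
  have h2 : 2 ^ 2 ≤ 2 ^ (m + 2 + j) := Nat.pow_le_pow_right (by norm_num) (by omega)
  omega

theorem coprime_six (m j : ℕ) : Nat.Coprime 6 (pr m j) := by
  have h2 : Nat.Coprime 2 (pr m j) := by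
    rw [Nat.coprime_primes Nat.prime_two (pr_prime m j)]
    have := pr_ge5 m j
    omega
  have h3 : Nat.Coprime 3 (pr m j) := by
    rw [Nat.coprime_primes Nat.prime_three (pr_prime m j)]
    have := pr_ge5 m j
    omega
  have : (6 : ℕ) = 2 * 3 := rfl
  rw [this]
  exact Nat.Coprime.mul_left h2 h3

theorem leg_per (m j : ℕ) (e : ℤ) (x : ℕ) :
    chi m j ((x % pr m j : ℕ) : ℤ) = e ↔ chi m j x = e := by
  unfold chi
  rw [leg_mod]

theorem PP_pos (m : ℕ) : 0 < PP m :=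
  Nat.mul_pos (Nat.mul_pos (pr_prime m 0).pos (pr_prime m 1).pos) (pr_prime m 2).pos

theorem dvd_PP (m : ℕ) : pr m 0 ∣ PP m ∧ pr m 1 ∣ PP m ∧ pr m 2 ∣ PP m := by
  unfold PP
  exact ⟨Dvd.dvd.mul_right (Dvd.intro _ rfl) _, Dvd.dvd.mul_right (Dvd.intro_left _ rfl) _,
    Dvd.intro_left _ rfl⟩

/-- counting one pattern over a period -/
theorem ct_pat6 (m : ℕ) (e0 e1 e2 : ℤ) (h0 : e0 = 1 ∨ e0 = -1) (h1 : e1 = 1 ∨ e1 = -1)
    (h2 : e2 = 1 ∨ e2 = -1) :
    ct (fun x => (x : ℤ) % 6 = 4 ∧ chi m 0 x = e0 ∧ chi m 1 x = e1 ∧ chi m 2 x = e2)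
      (6 * PP m) =
      (pr m 0 - 1) / 2 * ((pr m 1 - 1) / 2) * ((pr m 2 - 1) / 2) := by
  have hp : ∀ j, 0 < pr m j := fun j => (pr_prime m j).pos
  have hmm : ∀ (a b x : ℕ), x % (a * b) % b = x % b := fun a b x =>
    Nat.mod_mod_of_dvd x (Dvd.intro_left a rfl)
  have hmm' : ∀ (a b x : ℕ), x % (a * b) % a = x % a := fun a b x =>
    Nat.mod_mod_of_dvd x (Dvd.intro b rfl)
  have e1' : ct (fun x => (chi m 0 x = e0 ∧ chi m 1 x = e1) ∧ chi m 2 x = e2) (PP m) =
      (pr m 0 - 1) / 2 * ((pr m 1 - 1) / 2) * ((pr m 2 - 1) / 2) := by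
    unfold PP
    rw [ct_mul (P := fun x : ℕ => chi m 0 x = e0 ∧ chi m 1 x = e1) (Q := fun x : ℕ => chi m 2 x = e2)
      (Nat.mul_pos (hp 0) (hp 1)) (hp 2) (Nat.Coprime.mul_left (coprime_pr (by norm_num))
        (coprime_pr (by norm_num))) (by
        intro x
        rw [← leg_per m 0 e0 (x % (pr m 0 * pr m 1)), hmm', leg_per,
          ← leg_per m 1 e1 (x % (pr m 0 * pr m 1)), hmm, leg_per]) (leg_per m 2 e2),
      ct_mul (P := fun x : ℕ => chi m 0 x = e0) (Q := fun x : ℕ => chi m 1 x = e1) (hp 0) (hp 1)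
        (coprime_pr (by norm_num)) (leg_per m 0 e0) (leg_per m 1 e1)]
    have k0 := ct_leg (pr m 0) (pr_odd m 0) e0 h0
    have k1 := ct_leg (pr m 1) (pr_odd m 1) e1 h1
    have k2 := ct_leg (pr m 2) (pr_odd m 2) e2 h2
    unfold chi
    rw [k0, k1, k2]
  have e2' : ct (fun x => (x : ℤ) % 6 = 4) 6 = 1 := by
    have h3 : ct (fun x => (x : ℤ) % 6 = 4) 6 = ct (fun x => x % 6 = 4) 6 :=
      ct_congr _ fun x => by omega
    rw [h3]
    unfold ct
    rw [Finset.card_eq_one]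
    refine ⟨4, ?_⟩
    ext x
    simp only [Finset.mem_filter, Finset.mem_range, Finset.mem_singleton]
    omega
  rw [ct_congr (Q := fun x : ℕ => (x : ℤ) % 6 = 4 ∧
      ((chi m 0 x = e0 ∧ chi m 1 x = e1) ∧ chi m 2 x = e2)) _ (fun x => by tauto),
    ct_mul (P := fun x : ℕ => (x : ℤ) % 6 = 4)
      (Q := fun x : ℕ => (chi m 0 x = e0 ∧ chi m 1 x = e1) ∧ chi m 2 x = e2)
      (by norm_num) (PP_pos m) _ (by intro x; omega) _, e1', e2', one_mul]
  · unfold PP
    exact Nat.Coprime.mul_right (Nat.Coprime.mul_right (coprime_six m 0) (coprime_six m 1))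
      (coprime_six m 2)
  · intro x
    have q0 : x % PP m % pr m 0 = x % pr m 0 := Nat.mod_mod_of_dvd _ (dvd_PP m).1
    have q1 : x % PP m % pr m 1 = x % pr m 1 := Nat.mod_mod_of_dvd _ (dvd_PP m).2.1
    have q2 : x % PP m % pr m 2 = x % pr m 2 := Nat.mod_mod_of_dvd _ (dvd_PP m).2.2
    rw [← leg_per m 0 e0 (x % PP m), q0, leg_per, ← leg_per m 1 e1 (x % PP m), q1, leg_per,
      ← leg_per m 2 e2 (x % PP m), q2, leg_per]

/-- counting one pattern in a window -/
theorem card_gw (k : ℕ) (Z : ℤ) (e0 e1 e2 : ℤ) (h0 : e0 = 1 ∨ e0 = -1) (h1 : e1 = 1 ∨ e1 = -1)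
    (h2 : e2 = 1 ∨ e2 = -1) :
    ((GW k Z).filter fun z => chi (2 * k) 0 z = e0 ∧ chi (2 * k) 1 z = e1 ∧
      chi (2 * k) 2 z = e2).card = nc k := by
  classical
  unfold GW
  rw [Finset.filter_filter]
  rw [card_win (Q := fun z => z % 6 = 4 ∧ chi (2 * k) 0 z = e0 ∧ chi (2 * k) 1 z = e1 ∧
    chi (2 * k) 2 z = e2) (N := LL k) (D := 6 * PP (2 * k))
    (by unfold LL; exact dvd_pow_self _ (by norm_num)) ?_ Z, ct_pat6 _ _ _ _ h0 h1 h2]
  · rfl
  · intro z
    have q0 : ∀ j, pr (2 * k) j ∣ PP (2 * k) →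
        chi (2 * k) j (z + (6 * PP (2 * k) : ℕ)) = chi (2 * k) j z := by
      intro j hj
      obtain ⟨i, hi⟩ := hj
      have h3 : ((6 * PP (2 * k) : ℕ) : ℤ) = (pr (2 * k) j : ℤ) * (6 * i) := by
        rw [hi]; push_cast; ring
      unfold chi
      rw [h3, leg_add]
    rw [q0 0 (dvd_PP _).1, q0 1 (dvd_PP _).2.1, q0 2 (dvd_PP _).2.2]
    have h4 : (z + ((6 * PP (2 * k) : ℕ) : ℤ)) % 6 = z % 6 := by
      push_cast
      rw [Int.add_mul_emod_self_left]
    rw [h4]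

theorem chi3 (m j : ℕ) (z : ℤ) : chi m j z = 0 ∨ chi m j z = 1 ∨ chi m j z = -1 := leg_cases _ z

theorem nc_pos (k : ℕ) : 0 < nc k := by
  unfold nc LL
  have h1 := PP_pos (2 * k)
  have h2 : ∀ j, 0 < (pr (2 * k) j - 1) / 2 := by
    intro j
    have := pr_ge5 (2 * k) j
    omega
  refine Nat.mul_pos ?_ (Nat.mul_pos (Nat.mul_pos (h2 0) (h2 1)) (h2 2))
  rw [pow_two, Nat.mul_div_cancel_left _ (by omega)]
  omega

theorem card_GA (k : ℕ) (Z s : ℤ) (hs : s = 1 ∨ s = -1) : (GA k Z s).card = nc k := by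
  rw [← card_gw k Z s s s hs hs hs]
  unfold GA
  congr 1
  refine Finset.filter_congr fun z _ => ?_
  unfold cm
  rcases chi3 (2 * k) 0 z with h0 | h0 | h0 <;> rcases chi3 (2 * k) 1 z with h1 | h1 | h1 <;>
    rcases chi3 (2 * k) 2 z with h2 | h2 | h2 <;> rw [h0, h1, h2] <;>
    rcases hs with rfl | rfl <;> norm_num

theorem card_GE (k : ℕ) (Z s : ℤ) (hs : s = 1 ∨ s = -1) : (GE k Z s).card = 3 * nc k := by
  classical
  have hs' : -s = 1 ∨ -s = -1 := by
    rcases hs with rfl | rfl <;> norm_num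
  have h1 : GE k Z s = ((GW k Z).filter fun z => chi (2 * k) 0 z = -s ∧ chi (2 * k) 1 z = s ∧
      chi (2 * k) 2 z = s) ∪ (((GW k Z).filter fun z => chi (2 * k) 0 z = s ∧
      chi (2 * k) 1 z = -s ∧ chi (2 * k) 2 z = s) ∪ ((GW k Z).filter fun z =>
      chi (2 * k) 0 z = s ∧ chi (2 * k) 1 z = s ∧ chi (2 * k) 2 z = -s)) := by
    unfold GE
    rw [← Finset.filter_or, ← Finset.filter_or]
    refine Finset.filter_congr fun z _ => ?_
    unfold cm cp
    rcases chi3 (2 * k) 0 z with h0 | h0 | h0 <;> rcases chi3 (2 * k) 1 z with h1 | h1 | h1 <;>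
      rcases chi3 (2 * k) 2 z with h2 | h2 | h2 <;> rw [h0, h1, h2] <;>
      rcases hs with rfl | rfl <;> norm_num
  rw [h1, Finset.card_union_of_disjoint, Finset.card_union_of_disjoint, card_gw _ _ _ _ _ hs' hs hs,
    card_gw _ _ _ _ _ hs hs' hs, card_gw _ _ _ _ _ hs hs hs']
  · ring
  · rw [Finset.disjoint_filter]
    rintro z _ ⟨_, h2, _⟩ ⟨_, h3, _⟩
    rcases hs with rfl | rfl <;> omega
  · rw [← Finset.filter_or, Finset.disjoint_filter]
    rintro z _ ⟨h2, _, _⟩ h3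
    rcases h3 with h3 | h3 <;> rcases hs with rfl | rfl <;> omega

/-- (GCT) -/
theorem gct : T_GCT := by
  classical
  intro k Z
  refine ⟨nc_pos k, fun s hs => ⟨card_GA k Z s hs, card_GE k Z s hs⟩, ?_, ?_, ?_⟩
  · intro z
    unfold cp cm
    rcases chi3 (2 * k) 0 z with h0 | h0 | h0 <;> rcases chi3 (2 * k) 1 z with h1 | h1 | h1 <;>
      rcases chi3 (2 * k) 2 z with h2 | h2 | h2 <;> rw [h0, h1, h2] <;> intro h <;>
      first
        | (exfalso; revert h; norm_num; done)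
        | (refine ⟨1, Or.inl rfl, ?_⟩; norm_num; done)
        | (refine ⟨-1, Or.inr rfl, ?_⟩; norm_num; done)
  · intro s z hs
    unfold cp cm
    rcases chi3 (2 * k) 0 z with h0 | h0 | h0 <;> rcases chi3 (2 * k) 1 z with h1 | h1 | h1 <;>
      rcases chi3 (2 * k) 2 z with h2 | h2 | h2 <;> rw [h0, h1, h2] <;>
      rcases hs with rfl | rfl <;> norm_num
  · have h1 : ∀ z ∈ GW k Z, cp k z * cm k z =
        ((if cm k z = 3 * 1 then 3 else 0) + (if cm k z = 3 * (-1) then 3 else 0)) -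
        ((if cm k z = 1 ∧ cp k z = -1 then 1 else 0) +
          (if cm k z = -1 ∧ cp k z = -(-1) then 1 else 0)) := by
      intro z _
      unfold cp cm
      rcases chi3 (2 * k) 0 z with h0 | h0 | h0 <;> rcases chi3 (2 * k) 1 z with h1 | h1 | h1 <;>
        rcases chi3 (2 * k) 2 z with h2 | h2 | h2 <;> rw [h0, h1, h2] <;> norm_num
    rw [Finset.sum_congr rfl h1, Finset.sum_sub_distrib, Finset.sum_add_distrib,
      Finset.sum_add_distrib, ← Finset.sum_filter, ← Finset.sum_filter, ← Finset.sum_filter,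
      ← Finset.sum_filter, Finset.sum_const, Finset.sum_const, Finset.sum_const,
      Finset.sum_const]
    have a1 := card_GA k Z 1 (Or.inl rfl)
    have a2 := card_GA k Z (-1) (Or.inr rfl)
    have a3 := card_GE k Z 1 (Or.inl rfl)
    have a4 := card_GE k Z (-1) (Or.inr rfl)
    unfold GA at a1 a2
    unfold GE at a3 a4
    rw [a1, a2, a3, a4]
    simp only [nsmul_eq_mul]
    push_cast
    ring

end Pool.Agent.H29.ET
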