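import Pool.Agent.H29.ET.GCT
import Pool.Agent.H29.SC.ROO
import Pool.Agent.H29.SC.ECH

/-!
# GSP: the weights of a gadget are small as a functional
-/

set_option autoImplicit false

open Finset Pool.Agent.H93.ET Pool.Agent.H85.SC Pool.Agent.H87.Synth Pool.Agent.H29.SC

namespace Pool.Agent.H29.ET

theorem expn_shift {D : ℕ} {κ : ℝ} {h : ℤ → ℂ} (hE : Expn D κ h) (t : ℤ) :
    Expn D κ fun z => h (z + t) := by
  obtain ⟨a, ha, hz⟩ := hE
  refine ⟨fun k => a k * ze D ^ ((k : ℤ) * t), fun k => ?_, fun z => ?_⟩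
  · rw [norm_mul, norm_zpow, ze_norm, one_zpow, mul_one]
    exact ha k
  · refine (hz (z + t)).trans (Finset.sum_congr rfl fun k _ => ?_)
    rw [mul_add, zpow_add₀ (ze_ne_zero D)]
    ring

/-- the weight of the window as a periodic function -/
noncomputable def hw (k : ℕ) (z : ℤ) : ℂ :=
  ind (fun z => ((6 : ℕ) : ℤ) ∣ z - 4) z * (chi (2 * k) 0 z : ℂ) * (chi (2 * k) 1 z : ℂ) *
    (chi (2 * k) 2 z : ℂ)

theorem hw_expn (k : ℕ) : Expn (6 * pr (2 * k) 0 * pr (2 * k) 1 * pr (2 * k) 2)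
    (1 / ((6 : ℕ) : ℝ) * (1 / Real.sqrt (pr (2 * k) 0)) * (1 / Real.sqrt (pr (2 * k) 1)) *
      (1 / Real.sqrt (pr (2 * k) 2))) (hw k) := by
  have hp : ∀ j, 0 < pr (2 * k) j := fun j => (pr_prime _ j).pos
  have e1 := eap 6 4 (by norm_num)
  have e2 := eml 6 (pr (2 * k) 0) _ _ _ _ (by norm_num) (hp 0) (coprime_six _ _) e1 (ech (2 * k) 0)
  have e3 := eml (6 * pr (2 * k) 0) (pr (2 * k) 1) _ _ _ _ (Nat.mul_pos (by norm_num) (hp 0))
    (hp 1) (Nat.Coprime.mul_left (coprime_six _ _) (coprime_pr (by norm_num))) e2 (ech (2 * k) 1)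
  exact eml (6 * pr (2 * k) 0 * pr (2 * k) 1) (pr (2 * k) 2) _ _ _ _
    (Nat.mul_pos (Nat.mul_pos (by norm_num) (hp 0)) (hp 1)) (hp 2)
    (Nat.Coprime.mul_left (Nat.Coprime.mul_left (coprime_six _ _) (coprime_pr (by norm_num)))
      (coprime_pr (by norm_num))) e3 (ech (2 * k) 2)

theorem sum_GW (k : ℕ) (Z : ℤ) (w : ℂ) :
    ∑ z ∈ GW k Z, (cp k z : ℂ) * w ^ z = ∑ z ∈ Ico Z (Z + LL k), hw k z * w ^ z := by
  classical
  unfold GW
  rw [Finset.sum_filter]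
  refine Finset.sum_congr rfl fun z _ => ?_
  unfold hw ind cp
  have h1 : ((6 : ℕ) : ℤ) ∣ z - 4 ↔ z % 6 = 4 := by
    push_cast
    omega
  by_cases h : z % 6 = 4
  · rw [if_pos h, if_pos (h1.2 h)]
    push_cast
    ring
  · rw [if_neg h, if_neg fun h2 => h (h1.1 h2)]
    ring

theorem LL_pos (k : ℕ) : 0 < LL k := by
  unfold LL
  have := PP_pos (2 * k)
  positivity

theorem sum_bound (k : ℕ) (Z : ℤ) (w : ℂ) (hwn : ‖w‖ = 1) :
    ‖∑ z ∈ GW k Z, (cp k z : ℂ) * w ^ z‖ ≤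
      9 * (1 / ((6 : ℕ) : ℝ) * (1 / Real.sqrt (pr (2 * k) 0)) * (1 / Real.sqrt (pr (2 * k) 1)) *
      (1 / Real.sqrt (pr (2 * k) 2))) * LL k := by
  have hw0 : w ≠ 0 := ne_zero_of_norm hwn
  have hp : ∀ j, 0 < pr (2 * k) j := fun j => (pr_prime _ j).pos
  have hD : 0 < 6 * pr (2 * k) 0 * pr (2 * k) 1 * pr (2 * k) 2 :=
    Nat.mul_pos (Nat.mul_pos (Nat.mul_pos (by norm_num) (hp 0)) (hp 1)) (hp 2)
  have hL := LL_pos k
  have h1 := fap (roo alt) _ _ _ hD (expn_shift (hw_expn k) (Z - LL k))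
    (fun a => LL k * 16 ^ a) (fun a => ⟨Nat.mul_pos hL (by positivity), by
      rw [pow_succ]
      exact le_of_eq (by ring)⟩) (by
      rw [pow_zero, mul_one]
      unfold LL PP
      exact le_of_eq (by ring)) w hwn 1
  rw [Finset.sum_range_one, pow_zero, one_mul, pow_zero, mul_one] at h1
  unfold av at h1
  rw [norm_mul, norm_div, norm_one, Complex.norm_natCast] at h1
  have hLr : (0 : ℝ) < LL k := by exact_mod_cast hL
  rw [one_div, inv_mul_le_iff₀ hLr] at h1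
  rw [sum_GW]
  have h2 : ∑ z ∈ Ico Z (Z + LL k), hw k z * w ^ z =
      w ^ (Z - LL k) * ∑ z ∈ Finset.Ico ((LL k : ℕ) : ℤ) (2 * (LL k : ℕ)),
        hw k (z + (Z - LL k)) * w ^ z := by
    rw [Finset.mul_sum]
    refine Finset.sum_nbij' (fun z => z - (Z - LL k)) (fun z => z + (Z - LL k)) ?_ ?_ ?_ ?_ ?_
    · intro z hz
      rw [Finset.mem_Ico] at hz ⊢
      omega
    · intro z hz
      rw [Finset.mem_Ico] at hz ⊢
      omega
    · intro z _
      simp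
    · intro z _
      simp
    · intro z _
      rw [sub_add_cancel, zpow_sub₀ hw0 z]
      have h3 : w ^ (Z - (LL k : ℤ)) ≠ 0 := zpow_ne_zero _ hw0
      field_simp
  rw [h2, norm_mul, norm_zpow, hwn, one_zpow, one_mul]
  refine h1.trans (le_of_eq ?_)
  ring

theorem size_bound (k : ℕ) : 6 * PP (2 * k) ≤ 94 *
    ((pr (2 * k) 0 - 1) / 2 * ((pr (2 * k) 1 - 1) / 2) * ((pr (2 * k) 2 - 1) / 2)) := by
  have h1 : ∀ j, 2 * pr (2 * k) j ≤ 5 * ((pr (2 * k) j - 1) / 2) := by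
    intro j
    have h2 := pr_ge5 (2 * k) j
    rcases (pr_prime (2 * k) j).eq_two_or_odd with h3 | h3
    · omega
    · omega
  have h2 := Nat.mul_le_mul (Nat.mul_le_mul (h1 0) (h1 1)) (h1 2)
  unfold PP
  generalize pr (2 * k) 0 = a at *
  generalize pr (2 * k) 1 = b at *
  generalize pr (2 * k) 2 = c at *
  generalize (a - 1) / 2 = x at *
  generalize (b - 1) / 2 = y at *
  generalize (c - 1) / 2 = z at *
  nlinarith [h2, Nat.zero_le (x * y * z), Nat.zero_le (a * b * c)]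

theorem LL_le (k : ℕ) : (LL k : ℝ) ≤ 94 * nc k := by
  have h1 : LL k ≤ 94 * nc k := by
    unfold nc
    have h0 := PP_pos (2 * k)
    have h2 : LL k / (6 * PP (2 * k)) = 6 * PP (2 * k) := by
      unfold LL
      rw [pow_two, Nat.mul_div_cancel_left _ (by omega)]
    rw [h2]
    have h3 := size_bound k
    calc LL k = 6 * PP (2 * k) * (6 * PP (2 * k)) := by unfold LL; ring
      _ ≤ 6 * PP (2 * k) * (94 * ((pr (2 * k) 0 - 1) / 2 * ((pr (2 * k) 1 - 1) / 2) *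
          ((pr (2 * k) 2 - 1) / 2))) := Nat.mul_le_mul_left _ h3
      _ = _ := by ring
  exact_mod_cast h1

theorem PP_lower' (j : ℕ) : 2 ^ (3 * j + 9) ≤ PP j := by
  have h0 := (pr_gt j 0).le
  have h1 := (pr_gt j 1).le
  have h2 := (pr_gt j 2).le
  unfold PP
  have e : 2 ^ (3 * j + 9) = 2 ^ (j + 2 + 0) * 2 ^ (j + 2 + 1) * 2 ^ (j + 2 + 2) := by
    rw [← pow_add, ← pow_add]
    congr 1
    ring
  rw [e]
  exact Nat.mul_le_mul (Nat.mul_le_mul h0 h1) h2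

theorem sqrt_lower (k : ℕ) : 22 * 8 ^ k ≤
    Real.sqrt (pr (2 * k) 0) * Real.sqrt (pr (2 * k) 1) * Real.sqrt (pr (2 * k) 2) := by
  rw [← Real.sqrt_mul (Nat.cast_nonneg _), ← Real.sqrt_mul (by positivity)]
  apply Real.le_sqrt_of_sq_le
  have h1 : (2 : ℝ) ^ (3 * (2 * k) + 9) ≤
      (pr (2 * k) 0 : ℝ) * (pr (2 * k) 1 : ℝ) * (pr (2 * k) 2 : ℝ) := by
    have h2 := PP_lower' (2 * k)
    unfold PP at h2
    exact_mod_cast h2
  refine le_trans ?_ h1
  have h3 : (2 : ℝ) ^ (3 * (2 * k) + 9) = 512 * (8 ^ k) ^ 2 := by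
    have h4 : 3 * (2 * k) + 9 = 3 * k + 3 * k + 9 := by ring
    rw [h4, pow_add, pow_add, pow_mul]
    norm_num
    ring
  rw [h3]
  have h5 : (0 : ℝ) ≤ (8 ^ k) ^ 2 := by positivity
  nlinarith

/-- (GSP) -/
theorem gsp : T_GSP := by
  intro k Z w hwn
  have h1 := sum_bound k Z w hwn
  have hnc : (0 : ℝ) < nc k := by exact_mod_cast nc_pos k
  have h2 : ∑ z ∈ GW k Z, -((3 : ℂ) ^ k / nc k) * (cp k z : ℂ) * w ^ z =
      -((3 : ℂ) ^ k / nc k) * ∑ z ∈ GW k Z, (cp k z : ℂ) * w ^ z := by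
    rw [Finset.mul_sum]
    exact Finset.sum_congr rfl fun z _ => by ring
  rw [h2, norm_mul, norm_neg, norm_div, norm_pow, Complex.norm_natCast]
  have h3n : ‖(3 : ℂ)‖ = 3 := by simp
  rw [h3n]
  set s := Real.sqrt (pr (2 * k) 0) * Real.sqrt (pr (2 * k) 1) * Real.sqrt (pr (2 * k) 2) with hs
  have hs1 : 22 * 8 ^ k ≤ s := sqrt_lower k
  have h8 : (0 : ℝ) < 8 ^ k := by positivity
  have hs0 : 0 < s := by linarith
  have h4 : 9 * (1 / ((6 : ℕ) : ℝ) * (1 / Real.sqrt (pr (2 * k) 0)) *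
      (1 / Real.sqrt (pr (2 * k) 1)) * (1 / Real.sqrt (pr (2 * k) 2))) * LL k =
      3 / 2 * LL k / s := by
    rw [hs]
    push_cast
    field_simp
    ring
  rw [h4] at h1
  calc 3 ^ k / (nc k : ℝ) * ‖∑ z ∈ GW k Z, (cp k z : ℂ) * w ^ z‖
      ≤ 3 ^ k / (nc k : ℝ) * (3 / 2 * LL k / s) :=
        mul_le_mul_of_nonneg_left h1 (by positivity)
    _ ≤ 3 ^ k / (nc k : ℝ) * (3 / 2 * (94 * nc k) / (22 * 8 ^ k)) := by
        refine mul_le_mul_of_nonneg_left ?_ (by positivity)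
        have h5 := LL_le k
        have h6 : 3 / 2 * (LL k : ℝ) ≤ 3 / 2 * (94 * nc k) := by linarith
        exact div_le_div₀ (by positivity) h6 (by positivity) hs1
    _ = 141 / 22 * (3 ^ k / 8 ^ k) := by
        field_simp
        ring
    _ ≤ 100 * (1 / 2) ^ k := by
        have h7 : (3 : ℝ) ^ k / 8 ^ k = (3 / 8) ^ k := (div_pow _ _ _).symm
        rw [h7]
        have h9 : ((3 : ℝ) / 8) ^ k ≤ (1 / 2) ^ k := pow_le_pow_left₀ (by norm_num) (by norm_num) k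
        have h10 : (0 : ℝ) ≤ (1 / 2) ^ k := by positivity
        nlinarith

end Pool.Agent.H29.ET
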